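import Mathlib
import Pool.Agent.Lib.MP_f9aece_nt_n4.Stmts
import Pool.Agent.Lib.MP_f9aece_nt_h4.NIntA
import Pool.Agent.Lib.MP_f9aece_nt_j4.GroupsH
import Pool.Agent.Lib.MP_f9aece_nt_j4.I2Sum
import Pool.Agent.Lib.MP_f9aece_nt_j4.MlBase
import Pool.Agent.Lib.MP_f9aece_nt_j4.EnNorm

/-!
Moments of zeta of order between two and four: energy of the window polynomials (R4).
-/

set_option autoImplicit false

namespace Pool.Agent.Lib.N4

open MeasureTheory Set Filter Topology Complex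
open Pool.Agent.Lib.MP_f9aece_nt (DP pair BK K1 ev PP VV Smo expo EE Cone mulKer_K1)
open Pool.Agent.Lib.MP_f9aece_nt_h5 (tw coeff_tw)
open Pool.Agent.Lib.MP_f9aece_nt_h85 (rz Rst Pst)
open Pool.Agent.Lib.J4 (Sg Yg rg Jok En dv vvSg En_nonneg' En_eq_sum)
open Pool.Agent.Lib.J4.H29 (coeff_mul_eq)

namespace R4

lemma coeff_sum_single (s : Finset ℕ) (g : ℕ → ℝ) (m : ℕ) :
    (∑ n ∈ s, (MonoidAlgebra.single n (g n) : DP)).coeff m = if m ∈ s then g m else 0 := by
  rw [MonoidAlgebra.coeff_sum, Finsupp.finsetSum_apply]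
  simp only [MonoidAlgebra.coeff_single, Finsupp.single_apply]
  rw [Finset.sum_ite_eq']

lemma En_add_le (f g : DP) : En (f + g) ≤ 2 * En f + 2 * En g := by
  have h1 := J4.H24.En_add_smul f g 1
  have h2 := J4.H24.En_add_smul f g (-1)
  have h3 := En_nonneg' (f + (-1 : ℝ) • g)
  rw [one_smul] at h1
  rw [h2] at h3
  rw [h1]
  linarith

/-- the energy at distance `δ` -/
lemma En_tw_eq {δ : ℝ} (f : DP) (hf : ∀ n, f.coeff n ≠ 0 → 1 ≤ n) :
    En (tw δ f) = ∑ n ∈ f.coeff.support, f.coeff n ^ 2 * (n : ℝ) ^ (-(1 + 2 * δ)) := by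
  classical
  have hsub : (tw δ f).coeff.support ⊆ f.coeff.support := by
    intro n hn
    rw [Finsupp.mem_support_iff, coeff_tw] at hn
    exact Finsupp.mem_support_iff.2 (left_ne_zero_of_mul hn)
  rw [En_eq_sum, Finset.sum_subset hsub]
  · refine Finset.sum_congr rfl fun n hn => ?_
    have h1 := hf n (Finsupp.mem_support_iff.1 hn)
    have hn0 : (0 : ℝ) < n := by exact_mod_cast h1
    rw [coeff_tw, mul_pow, mul_assoc]
    congr 1
    rw [← Real.rpow_neg_one (n : ℝ), ← Real.rpow_natCast, ← Real.rpow_mul hn0.le,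
      ← Real.rpow_add hn0]
    congr 1
    push_cast
    ring
  · intro n _ hn
    rw [Finsupp.notMem_support_iff.1 hn]
    ring

lemma OmS_mul (S : Finset ℕ) {a b : ℕ} (ha : a ≠ 0) (hb : b ≠ 0) :
    OmS S (a * b) = OmS S a + OmS S b := by
  unfold OmS
  rw [← Finset.sum_add_distrib]
  refine Finset.sum_congr rfl fun p _ => ?_
  rw [Nat.factorization_mul ha hb]
  rfl

lemma mul_Smo {A : Set ℕ} {a b : ℕ} (ha : a ∈ Smo A) (hb : b ∈ Smo A) : a * b ∈ Smo A :=
  MP_f9aece_nt.mul_mem_Smo ha hb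

lemma ell_nonneg (v : ℕ) {Y : ℝ} (hY : 0 < Y) (g : ℕ) : 0 ≤ ell v Y g := by
  unfold ell
  have : 0 < Yg v Y g := by unfold Yg; positivity
  positivity

lemma el_nonneg (v : ℕ) {Y : ℝ} (hY : 0 < Y) (J g : ℕ) : 0 ≤ el v Y J g := by
  unfold el
  split_ifs
  · exact ell_nonneg v hY g
  · exact le_rfl

lemma ell_succ_le {v : ℕ} (hv : 2 ≤ v) {Y : ℝ} (hY : 0 < Y) (g : ℕ) :
    ell v Y (g + 1) ≤ ell v Y g := by
  unfold ell
  have hvr : (2 : ℝ) ≤ v := by exact_mod_cast hv
  have hY0 : 0 < Yg v Y g := by unfold Yg; positivity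
  have e1 : Yg v Y (g + 1) = Yg v Y g * Real.exp (-((v : ℝ) * (g + 1))) := by
    unfold Yg
    rw [mul_assoc Y, ← Real.exp_add]
    congr 2
    push_cast
    ring
  rw [e1]
  have h1 : ((g : ℝ) + 2) ^ 2 * Real.exp (-((v : ℝ) * (g + 1))) ≤ ((g : ℝ) + 1) ^ 2 := by
    have hg : (0 : ℝ) ≤ g := by positivity
    have h2 : Real.exp (-((v : ℝ) * (g + 1))) ≤ Real.exp (-2) := by
      apply Real.exp_le_exp.2
      nlinarith
    have h3 : Real.exp (-2) ≤ 1 / 4 := by
      rw [Real.exp_neg, one_div]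
      apply inv_anti₀ (by norm_num)
      have h4 : Real.exp 2 = Real.exp 1 * Real.exp 1 := by rw [← Real.exp_add]; norm_num
      have h5 := Real.exp_one_gt_d9
      rw [h4]
      nlinarith
    have h6 : ((g : ℝ) + 2) ^ 2 ≤ 4 * ((g : ℝ) + 1) ^ 2 := by nlinarith
    have h7 : 0 ≤ ((g : ℝ) + 2) ^ 2 := by positivity
    calc ((g : ℝ) + 2) ^ 2 * Real.exp (-((v : ℝ) * (g + 1))) ≤ ((g : ℝ) + 2) ^ 2 * (1 / 4) :=
          mul_le_mul_of_nonneg_left (h2.trans h3) h7
      _ ≤ _ := by linarith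
  have h2 : (1000000 : ℝ) * v * (((g + 1 : ℕ) : ℝ) + 1) ^ 2 *
      (Yg v Y g * Real.exp (-((v : ℝ) * (g + 1)))) =
      1000000 * v * Yg v Y g * (((g : ℝ) + 2) ^ 2 * Real.exp (-((v : ℝ) * (g + 1)))) := by
    push_cast
    ring
  rw [h2]
  calc 1000000 * v * Yg v Y g * (((g : ℝ) + 2) ^ 2 * Real.exp (-((v : ℝ) * (g + 1))))
      ≤ 1000000 * v * Yg v Y g * ((g : ℝ) + 1) ^ 2 :=
        mul_le_mul_of_nonneg_left h1 (by positivity)
    _ = _ := by ring

lemma En_tw_le {δ : ℝ} (hδ : 0 ≤ δ) (g : DP) {L : ℝ}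
    (hg : ∀ n, g.coeff n ≠ 0 → 1 ≤ n ∧ 2 * L ≤ Real.log n) :
    En (tw δ g) ≤ Real.exp (-(4 * δ * L)) * En g := by
  rw [En_tw_eq _ fun n hn => (hg n hn).1, En_eq_sum, Finset.mul_sum]
  refine Finset.sum_le_sum fun n hn => ?_
  obtain ⟨h4, h5⟩ := hg n (Finsupp.mem_support_iff.1 hn)
  have hn0 : (0 : ℝ) < n := by exact_mod_cast h4
  have h6 : (n : ℝ) ^ (-(1 + 2 * δ)) ≤ Real.exp (-(4 * δ * L)) * (n : ℝ)⁻¹ := by
    have e1 : (n : ℝ) ^ (-(1 + 2 * δ)) = (n : ℝ) ^ (-(2 * δ)) * (n : ℝ)⁻¹ := by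
      rw [← Real.rpow_neg_one (n : ℝ), ← Real.rpow_add hn0]
      congr 1
      ring
    rw [e1]
    refine mul_le_mul_of_nonneg_right ?_ (by positivity)
    rw [Real.rpow_def_of_pos hn0]
    apply Real.exp_le_exp.2
    nlinarith
  calc g.coeff n ^ 2 * (n : ℝ) ^ (-(1 + 2 * δ))
      ≤ g.coeff n ^ 2 * (Real.exp (-(4 * δ * L)) * (n : ℝ)⁻¹) :=
        mul_le_mul_of_nonneg_left h6 (sq_nonneg _)
    _ = _ := by ring

end R4

theorem pieceEnergy (hq : QCoeff) (hw : WinEnergy) (ho : OmEnergy) : PieceEnergy := by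
  classical
  obtain ⟨v1, hV⟩ := vvSg
  refine ⟨max v1 2, fun p0 hp0 => ?_⟩
  obtain ⟨CW, hCW, hw⟩ := hw p0 (by omega)
  obtain ⟨CO, hCO, ho⟩ := ho p0 hp0
  refine ⟨2 * CW + 8 * CO, by linarith, ?_⟩
  intro v hv Y hY J hJ z W δ hz hW hδ hXW i hi
  have hv1 : v1 ≤ v := (le_max_left _ _).trans hv
  have hv2 : 2 ≤ v := (le_max_right _ _).trans hv
  have hq := hq v p0 Y J hv2 (by omega) hY hJ z hz i hi
  set f := QW v p0 Y J z i with hf
  set zi := zc v Y J z i with hzi
  set z' := zc v Y J z (i + 1) with hz'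
  set y := Yg v Y i with hy
  set y' := Yg v Y (i + 1) with hy'
  have hz0 : 0 < z := by linarith
  have hzi0 : 0 < zi := by rw [hzi]; unfold zc; positivity
  have hz'0 : 0 < z' := by rw [hz']; unfold zc; positivity
  have hy0 : 0 < y := by rw [hy]; unfold Yg; positivity
  have hy'0 : 0 < y' := by rw [hy']; unfold Yg; positivity
  have hlzi : Real.log zi = Real.log z - ell v Y i := by
    rw [hzi]
    unfold zc el
    rw [if_pos hi, Real.log_mul hz0.ne' (Real.exp_pos _).ne', Real.log_exp]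
    ring
  have hlz' : Real.log z' = Real.log z - el v Y J (i + 1) := by
    rw [hz']
    unfold zc
    rw [Real.log_mul hz0.ne' (Real.exp_pos _).ne', Real.log_exp]
    ring
  have hel := R4.el_nonneg v hY J (i + 1)
  have helle : el v Y J (i + 1) ≤ ell v Y i := by
    unfold el
    split_ifs
    · exact R4.ell_succ_le hv2 hY i
    · exact R4.ell_nonneg v hY i
  have hlz : 0 ≤ Real.log z := Real.log_nonneg hz
  have hell := R4.ell_nonneg v hY i
  have hyy : y' ≤ y := by
    rw [hy, hy']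
    unfold Yg
    refine mul_le_mul_of_nonneg_left (Real.exp_le_exp.2 ?_) hY.le
    push_cast
    have : (0 : ℝ) ≤ v := by positivity
    have : (0 : ℝ) ≤ i := by positivity
    nlinarith [mul_nonneg ‹(0 : ℝ) ≤ v› ‹(0 : ℝ) ≤ i›]
  have hy12 : 1 / 2 ≤ y := by
    have h1 := hJ.2 i hi
    have h2 : Real.log 1000 ≤ Real.log p0 := Real.log_le_log (by norm_num) (by exact_mod_cast hp0)
    have h3 : (1 / 2 : ℝ) ≤ Real.log 1000 := by
      have h4 := Real.log_two_gt_d9
      have h5 : Real.log 2 ≤ Real.log 1000 := Real.log_le_log (by norm_num) (by norm_num)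
      linarith
    linarith
  -- the two parts
  set sa := f.coeff.support.filter (fun n : ℕ => zi < (n : ℝ)) with hsa
  set sb := f.coeff.support.filter (fun n : ℕ => ¬ zi < (n : ℝ)) with hsb
  set a : DP := ∑ n ∈ sa, MonoidAlgebra.single n (f.coeff n) with ha
  set b : DP := ∑ n ∈ sb, MonoidAlgebra.single n (f.coeff n) with hb
  have hac : ∀ n, a.coeff n = if n ∈ sa then f.coeff n else 0 := fun n =>
    R4.coeff_sum_single sa (fun n => f.coeff n) n
  have hbc : ∀ n, b.coeff n = if n ∈ sb then f.coeff n else 0 := fun n =>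
    R4.coeff_sum_single sb (fun n => f.coeff n) n
  have hab : f = a + b := by
    ext n
    rw [MonoidAlgebra.coeff_add, Finsupp.add_apply, hac, hbc]
    by_cases h1 : f.coeff n = 0
    · rw [h1]
      simp
    · have h2 : n ∈ f.coeff.support := Finsupp.mem_support_iff.2 h1
      by_cases h3 : zi < (n : ℝ)
      · rw [if_pos (Finset.mem_filter.2 ⟨h2, h3⟩ : n ∈ sa),
          if_neg (fun h : n ∈ sb => (Finset.mem_filter.1 h).2 h3), add_zero]
      · rw [if_neg (fun h : n ∈ sa => h3 (Finset.mem_filter.1 h).2),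
          if_pos (Finset.mem_filter.2 ⟨h2, h3⟩ : n ∈ sb), zero_add]
  have ha1 : ∀ n, a.coeff n ≠ 0 → f.coeff n ≠ 0 ∧ zi < (n : ℝ) := by
    intro n hn
    rw [hac] at hn
    split_ifs at hn with h
    · exact ⟨hn, (Finset.mem_filter.1 h).2⟩
    · exact absurd rfl hn
  have hb1 : ∀ n, b.coeff n ≠ 0 → f.coeff n ≠ 0 ∧ ¬ zi < (n : ℝ) := by
    intro n hn
    rw [hbc] at hn
    split_ifs at hn with h
    · exact ⟨hn, (Finset.mem_filter.1 h).2⟩
    · exact absurd rfl hn
  have ha01 : ∀ n, 0 ≤ a.coeff n ∧ a.coeff n ≤ 1 := by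
    intro n
    rw [hac]
    split_ifs
    · exact ⟨(hq n).1, (hq n).2.1⟩
    · exact ⟨le_rfl, zero_le_one⟩
  have hb01 : ∀ n, 0 ≤ b.coeff n ∧ b.coeff n ≤ 1 := by
    intro n
    rw [hbc]
    split_ifs
    · exact ⟨(hq n).1, (hq n).2.1⟩
    · exact ⟨le_rfl, zero_le_one⟩
  have hfn : ∀ n, f.coeff n ≠ 0 → n ∈ Smo (Rst p0 y') ∧ 1 ≤ n ∧ Real.log n ≤ Real.log z' := by
    intro n hn
    obtain ⟨h1, h2, -⟩ := (hq n).2.2 hn
    have h3 : 1 ≤ n := Nat.one_le_iff_ne_zero.2 h1.1
    exact ⟨h1, h3, Real.log_le_log (by exact_mod_cast h3) h2⟩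
  have hff : f * f = a * a + (2 • a + b) * b := by
    rw [hab]
    ring
  -- first part
  have hA : En (tw δ (a * a)) ≤ CW * (Real.exp (-(4 * δ * Real.log zi)) *
      (((Real.log z + y' + 1) / (y' + 1)) * ((ell v Y i + y' + 1) / (y' + 1)) ^ 3)) := by
    by_cases hx' : 0 ≤ Real.log z'
    · have h1 := hw y' hy'0.le (Real.log zi) (Real.log z') (by rw [hlzi, hlz']; linarith) hx' a
        (fun n => ⟨(ha01 n).1, (ha01 n).2, fun hn => by
          obtain ⟨h2, h3⟩ := ha1 n hn
          obtain ⟨h4, h5, h6⟩ := hfn n h2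
          exact ⟨h4, Real.log_lt_log hzi0 h3, h6⟩⟩)
      have h2 : CW * (((Real.log z' + y' + 1) / (y' + 1)) *
          ((Real.log z' - Real.log zi + y' + 1) / (y' + 1)) ^ 3) ≤
          CW * (((Real.log z + y' + 1) / (y' + 1)) * ((ell v Y i + y' + 1) / (y' + 1)) ^ 3) := by
        have e1 : Real.log z' ≤ Real.log z := by rw [hlz']; linarith
        have e2 : Real.log z' - Real.log zi ≤ ell v Y i := by rw [hlz', hlzi]; linarith
        have e3 : 0 ≤ Real.log z' - Real.log zi := by rw [hlzi, hlz']; linarith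
        have e4 : 0 ≤ CW := by linarith
        gcongr
      have haa : ∀ n, (a * a).coeff n ≠ 0 → 1 ≤ n ∧ 2 * Real.log zi ≤ Real.log n := by
        intro n hn
        obtain ⟨u, t, hu, ht, rfl⟩ := J4.NInt.coeff_mul_ne hn
        obtain ⟨hu1, hu2⟩ := ha1 u hu
        obtain ⟨ht1, ht2⟩ := ha1 t ht
        have hu3 := (hfn u hu1).2.1
        have ht3 := (hfn t ht1).2.1
        refine ⟨Nat.mul_pos hu3 ht3, ?_⟩
        push_cast
        rw [Real.log_mul (by positivity) (by positivity)]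
        have := Real.log_lt_log hzi0 hu2
        have := Real.log_lt_log hzi0 ht2
        linarith
      have h3 : En (tw δ (a * a)) ≤ Real.exp (-(4 * δ * Real.log zi)) * En (a * a) :=
        R4.En_tw_le hδ (a * a) haa
      calc En (tw δ (a * a)) ≤ Real.exp (-(4 * δ * Real.log zi)) * En (a * a) := h3
        _ ≤ Real.exp (-(4 * δ * Real.log zi)) * (CW * (((Real.log z + y' + 1) / (y' + 1)) *
            ((ell v Y i + y' + 1) / (y' + 1)) ^ 3)) :=
            mul_le_mul_of_nonneg_left (h1.trans h2) (Real.exp_pos _).le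
        _ = _ := by ring
    · have h1 : a = 0 := by
        ext n
        rw [MonoidAlgebra.coeff_zero, Finsupp.zero_apply]
        by_contra h2
        obtain ⟨-, h3, h4⟩ := hfn n (ha1 n h2).1
        have h5 : 0 ≤ Real.log (n : ℝ) := Real.log_natCast_nonneg n
        linarith
      rw [h1, mul_zero, map_zero]
      have h2 : En 0 = 0 := by rw [En_eq_sum]; simp
      rw [h2]
      positivity
  -- second part
  have hB : En (tw δ ((2 • a + b) * b)) ≤ 4 * (CO * ((1 / 2) ^ kap v i *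
      Real.exp (40 * (v * (i + 1))) * ((W + y) / y) ^ 4)) := by
    set g := (2 • a + b) * b with hg
    have hc2 : ∀ n, (2 • a + b).coeff n = 2 * a.coeff n + b.coeff n := by
      intro n
      rw [MonoidAlgebra.coeff_add, Finsupp.add_apply, two_smul, MonoidAlgebra.coeff_add,
        Finsupp.add_apply]
      ring
    have h02 : ∀ n, 0 ≤ (2 • a + b).coeff n ∧ (2 • a + b).coeff n ≤ 2 := by
      intro n
      rw [hc2]
      have e1 : f.coeff n = a.coeff n + b.coeff n := by
        rw [hab, MonoidAlgebra.coeff_add, Finsupp.add_apply]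
      have h1 := ha01 n
      have h2 := hb01 n
      have h3 := (hq n).2.1
      rw [e1] at h3
      constructor
      · linarith
      · linarith
    have hgn : ∀ n, g.coeff n ≠ 0 → 1 ≤ n ∧ n ∈ Smo (Rst p0 y') ∧
        Real.log n ≤ 2 * Real.log z ∧ kap v i ≤ OmS (Sg v p0 Y i) n := by
      intro n hn
      obtain ⟨u, t, hu, ht, rfl⟩ := J4.NInt.coeff_mul_ne hn
      obtain ⟨ht1, ht2⟩ := hb1 t ht
      have hu1 : f.coeff u ≠ 0 := by
        intro h0
        apply hu
        rw [hc2]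
        have h1 : a.coeff u = 0 := by
          by_contra h2
          exact (ha1 u h2).1 h0
        have h3 : b.coeff u = 0 := by
          by_contra h2
          exact (hb1 u h2).1 h0
        rw [h1, h3]
        ring
      obtain ⟨u1, u2, u3⟩ := hfn u hu1
      obtain ⟨t1, t2, t3⟩ := hfn t ht1
      have t4 : kap v i < OmS (Sg v p0 Y i) t := by
        rcases ((hq t).2.2 ht1).2.2 with h | h
        · exact absurd h ht2
        · exact h
      refine ⟨Nat.mul_pos u2 t2, R4.mul_Smo u1 t1, ?_, ?_⟩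
      · push_cast
        rw [Real.log_mul (by positivity) (by positivity)]
        rw [hlz'] at u3 t3
        linarith
      · rw [R4.OmS_mul _ (by omega) (by omega)]
        omega
    have h1 := ho y y' W (2 * Real.log z) δ hy'0.le hyy hy12 hδ hW hXW (Sg v p0 Y i) (by
      intro p
      unfold Sg
      rw [Finset.mem_filter, Finset.mem_Icc]
      constructor
      · rintro ⟨-, h2, h3, h4, h5⟩
        exact ⟨h2, h3, h4, h5⟩
      · rintro ⟨h2, h3, h4, h5⟩
        refine ⟨⟨h2.one_le, Nat.le_floor ?_⟩, h2, h3, h4, h5⟩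
        have hp0 : (0 : ℝ) < p := by exact_mod_cast h2.pos
        rw [← Real.exp_log hp0]
        apply Real.exp_le_exp.2
        refine h5.trans ?_
        rw [hy]
        unfold Yg
        have : Real.exp (-((v : ℝ) * i * (i + 1) / 2)) ≤ 1 := Real.exp_le_one_iff.2 (by
          have : (0 : ℝ) ≤ (v : ℝ) * i * (i + 1) / 2 := by positivity
          linarith)
        nlinarith) (kap v i) g.coeff.support (fun n hn => by
      obtain ⟨-, h2, h3, h4⟩ := hgn n (Finsupp.mem_support_iff.1 hn)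
      exact ⟨h2, h3, h4⟩)
    have h2 : En (tw δ g) ≤ 4 * ∑ n ∈ g.coeff.support, dv n ^ 2 * (n : ℝ) ^ (-(1 + 2 * δ)) := by
      rw [R4.En_tw_eq _ fun n hn => (hgn n hn).1, Finset.mul_sum]
      refine Finset.sum_le_sum fun n hn => ?_
      have h3 := (hgn n (Finsupp.mem_support_iff.1 hn)).1
      have h4 : 0 ≤ g.coeff n ∧ g.coeff n ≤ 2 * dv n := by
        rw [hg, coeff_mul_eq _ _ (by omega : n ≠ 0)]
        constructor
        · exact Finset.sum_nonneg fun u _ => mul_nonneg (h02 u).1 (hb01 _).1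
        · calc ∑ u ∈ n.divisors, (2 • a + b).coeff u * b.coeff (n / u)
              ≤ ∑ u ∈ n.divisors, (2 : ℝ) := by
                refine Finset.sum_le_sum fun u _ => ?_
                have e1 := h02 u
                have e2 := hb01 (n / u)
                nlinarith
            _ = 2 * dv n := by
                rw [Finset.sum_const, nsmul_eq_mul]
                unfold dv
                ring
      have h5 : g.coeff n ^ 2 ≤ 4 * dv n ^ 2 := by nlinarith
      calc g.coeff n ^ 2 * (n : ℝ) ^ (-(1 + 2 * δ)) ≤ 4 * dv n ^ 2 * (n : ℝ) ^ (-(1 + 2 * δ)) :=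
            mul_le_mul_of_nonneg_right h5 (by positivity)
        _ = _ := by ring
    refine h2.trans (mul_le_mul_of_nonneg_left (h1.trans ?_) (by norm_num))
    have hVV := hV v hv1 p0 Y i hY
    have h3 : Real.exp (20 * VV (Sg v p0 Y i)) ≤ Real.exp (40 * (v * (i + 1))) := by
      apply Real.exp_le_exp.2
      unfold rg at hVV
      push_cast at hVV
      linarith
    have h4 : 0 ≤ CO := by linarith
    have h5 : 0 ≤ (W + y) / y := by positivity
    gcongr
  have h1 := R4.En_add_le (tw δ (a * a)) (tw δ ((2 • a + b) * b))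
  rw [← map_add, ← hff] at h1
  refine h1.trans ?_
  have hWE : WE v Y J z W δ i = Real.exp (-(4 * δ * Real.log zi)) *
      (((Real.log z + y' + 1) / (y' + 1)) * ((ell v Y i + y' + 1) / (y' + 1)) ^ 3) +
      (1 / 2) ^ kap v i * Real.exp (40 * (v * (i + 1))) * ((W + y) / y) ^ 4 := rfl
  rw [hWE]
  set PA := Real.exp (-(4 * δ * Real.log zi)) *
      (((Real.log z + y' + 1) / (y' + 1)) * ((ell v Y i + y' + 1) / (y' + 1)) ^ 3) with hPA
  set PB := (1 / 2 : ℝ) ^ kap v i * Real.exp (40 * (v * (i + 1))) * ((W + y) / y) ^ 4 with hPB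
  have hPA0 : 0 ≤ PA := by positivity
  have hPB0 : 0 ≤ PB := by positivity
  nlinarith [mul_nonneg (by linarith : (0 : ℝ) ≤ CO) hPA0, mul_nonneg (by linarith : (0 : ℝ) ≤ CW) hPB0]

end Pool.Agent.Lib.N4
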