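import Mathlib
import Pool.Agent.Lib.MP_f9aece_nt_n4.Stmts
import Pool.Agent.Lib.MP_f9aece_nt_nl.O
import Pool.Agent.Lib.MP_f9aece_nt_nl.A2
import Pool.Agent.Lib.MP_f9aece_nt_nl.D
import Pool.Agent.Lib.MP_f9aece_nt_nl.G
import Pool.Agent.Lib.MP_f9aece_nt_h4.NIntA
import Pool.Agent.Lib.MP_f9aece_nt_h5.MeanB
import Pool.Agent.Lib.MP_f9aece_nt_j4.GroupsH
import Pool.Agent.Lib.MP_f9aece_nt_j4.I2Sum

/-!
Moments of zeta of order between two and four near the critical line: the main term (D4).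
-/

set_option autoImplicit false

namespace Pool.Agent.Lib.N4

open MeasureTheory Set Filter Topology Complex
open Pool.Agent.Lib.MP_f9aece_nt (DP pair BK K1 ev PP VV Smo expo EE Cone mulKer_K1)
open Pool.Agent.Lib.MP_f9aece_nt_h5 (tw coeff_tw ev_tw evs_mul BK_tw)
open Pool.Agent.Lib.MP_f9aece_nt_h40 (ind)
open Pool.Agent.Lib.MP_f9aece_nt_h85 (rz Rst Pst)
open Pool.Agent.Lib.MP_f9aece_nt_h97 (Psm Dsm evs Sup BK_mul_sup Len QS)
open Pool.Agent.Lib.J4 (Sg Yg rg Jok Bt Wt Vs En Wgt dv SU Rg sgDisj En_nonneg')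
open Pool.Agent.Lib.NL (pt B0 F0 SS ML smallPt cone_B0 sup_B0 small_K1s)

namespace D4

/-- all primes of the groups are larger than `p0` -/
lemma mem_SU {v p0 : ℕ} {Y : ℝ} {i J p : ℕ} (hp : p ∈ SU v p0 Y i J) :
    p.Prime ∧ p0 < p ∧ p ≤ ⌊Real.exp Y⌋₊ := by
  unfold SU at hp
  obtain ⟨g, -, hg⟩ := Finset.mem_biUnion.1 hp
  unfold Sg at hg
  obtain ⟨h1, h2, h3, -⟩ := Finset.mem_filter.1 hg
  exact ⟨h2, h3, (Finset.mem_Icc.1 h1).2⟩

lemma Qs_eq (δ : ℝ) (v p0 : ℕ) {Y : ℝ} (hY : 0 ≤ Y) (i J : ℕ) :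
    Qs δ v p0 Y i J = QS (1 + 2 * δ) (SU v p0 Y i J) := by
  unfold Qs SU QS
  rw [Finset.sum_biUnion fun g _ h _ hgh => sgDisj v p0 Y hY g h hgh]
  rfl

/-- comparison of the model with the Dirichlet series -/
lemma cmp (k δ : ℝ) (hk0 : 0 ≤ k) (hk : k ≤ 2) (hδ : 0 < δ) (hδ4 : δ ≤ 1 / 4) (K v p0 : ℕ)
    (hp0 : 1 ≤ p0) {Y : ℝ} (hY : 0 ≤ Y) (J : ℕ) :
    F0 k K p0 (1 + 2 * δ) * Real.exp (k ^ 2 * Qs δ v p0 Y 0 J)
      ≤ Real.exp (32 / p0) * SS k (1 + 2 * δ) := by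
  have hA : (0 : ℝ) < 2 := by norm_num
  have hs : 1 ≤ 1 + 2 * δ := by linarith
  obtain ⟨hsum, -⟩ := NL.OS.SS_le (Y := 1) (p0 := 1) hA hk0 hk le_rfl hδ hδ4 le_rfl (J := 1)
    (by have := Real.log_two_gt_d9; norm_num; linarith)
  set S := SU v p0 Y 0 J with hS
  set n := max p0 ⌊Real.exp Y⌋₊ + 1 with hn
  have h1 := NL.OS.prod_le_SS hA hk0 hk hs hsum n
  have hdisj : Disjoint (Psm p0) S := by
    rw [Finset.disjoint_left]
    intro p hp hq
    have h2 := (Finset.mem_Ioc.1 (Finset.mem_filter.1 hp).1).2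
    have h3 := (mem_SU hq).2.1
    omega
  have hsub : Psm p0 ∪ S ⊆ n.primesBelow := by
    intro p hp
    rw [Nat.mem_primesBelow]
    rcases Finset.mem_union.1 hp with hp | hp
    · have h2 := (Finset.mem_Ioc.1 (Finset.mem_filter.1 hp).1).2
      exact ⟨by rw [hn]; omega, NL.OS.Psm_pr p hp⟩
    · obtain ⟨h2, -, h3⟩ := mem_SU hp
      exact ⟨by rw [hn]; omega, h2⟩
  have h2 := NL.OS.prod_mono_sub (f := fun p : ℕ => NL.OS.Lq k ((p : ℝ) ^ (-(1 + 2 * δ)))) hsub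
    fun p hp => NL.OS.Lq_one_le hA hk0 hk hs (Nat.prime_of_mem_primesBelow hp)
  rw [Finset.prod_union hdisj] at h2
  have h3 := NL.OS.prod_Lq_ge hA hk0 hk hs S fun p hp => (mem_SU hp).1
  have h4 := NL.OS.F0_le hA hk0 hk hs K p0
  have h5 : MP_f9aece_nt_h97.V2 S ≤ 1 / p0 :=
    MP_f9aece_nt.sum_inv_sq_le p0 hp0 S fun p hp => (mem_SU hp).2.1
  have h6 : Real.exp (k ^ 2 * Qs δ v p0 Y 0 J) ≤ Real.exp (32 / p0) *
      ∏ p ∈ S, NL.OS.Lq k ((p : ℝ) ^ (-(1 + 2 * δ))) := by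
    have h7 : Real.exp (k ^ 2 * Qs δ v p0 Y 0 J) ≤ Real.exp (32 / p0) *
        Real.exp (k ^ 2 * QS (1 + 2 * δ) S - 2 * 2 ^ 4 * MP_f9aece_nt_h97.V2 S) := by
      rw [← Real.exp_add, Qs_eq δ v p0 hY 0 J]
      apply Real.exp_le_exp.2
      have h8 : (32 : ℝ) / p0 = 32 * (1 / p0) := by ring
      rw [h8]
      nlinarith
    exact h7.trans (mul_le_mul_of_nonneg_left h3 (Real.exp_pos _).le)
  have hF := NL.OS.one_le_F0 k K p0 (1 + 2 * δ)
  have hP : 0 ≤ ∏ p ∈ Psm p0, NL.OS.Lq k ((p : ℝ) ^ (-(1 + 2 * δ))) := by linarith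
  calc F0 k K p0 (1 + 2 * δ) * Real.exp (k ^ 2 * Qs δ v p0 Y 0 J)
      ≤ (∏ p ∈ Psm p0, NL.OS.Lq k ((p : ℝ) ^ (-(1 + 2 * δ)))) * (Real.exp (32 / p0) *
        ∏ p ∈ S, NL.OS.Lq k ((p : ℝ) ^ (-(1 + 2 * δ)))) :=
        mul_le_mul h4 h6 (Real.exp_pos _).le hP
    _ = Real.exp (32 / p0) * ((∏ p ∈ Psm p0, NL.OS.Lq k ((p : ℝ) ^ (-(1 + 2 * δ)))) *
        ∏ p ∈ S, NL.OS.Lq k ((p : ℝ) ^ (-(1 + 2 * δ)))) := by ring
    _ ≤ _ := mul_le_mul_of_nonneg_left (h2.trans h1) (Real.exp_pos _).le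

lemma sup_tw {A : Set ℕ} {f : DP} (δ : ℝ) (hf : Sup A f) : Sup A (tw δ f) := by
  intro n hn
  rw [coeff_tw] at hn
  exact hf n (left_ne_zero_of_mul hn)

/-- the small primes split off -/
lemma En_split {k δ : ℝ} (hδ : 0 ≤ δ) (K v p0 : ℕ) (Y : ℝ) (J : ℕ) {f : DP}
    (hf : Sup (Smo (SU v p0 Y 0 J : Set ℕ)) f) :
    En (tw δ (B0 k K p0 * f)) = F0 k K p0 (1 + 2 * δ) * En (tw δ f) := by
  have hdisj : Disjoint (Psm p0 : Set ℕ) (SU v p0 Y 0 J : Set ℕ) := by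
    rw [Set.disjoint_left]
    intro p hp hq
    have h2 := (Finset.mem_Ioc.1 (Finset.mem_filter.1 (Finset.mem_coe.1 hp)).1).2
    have h3 := (mem_SU (Finset.mem_coe.1 hq)).2.1
    omega
  unfold En
  rw [map_mul, BK_mul_sup K1 (sup_tw δ (sup_B0 k K p0)) (sup_tw δ (sup_B0 k K p0)) (sup_tw δ hf)
    (sup_tw δ hf) (mulKer_K1.2 _ _ hdisj), BK_tw hδ, small_K1s (by linarith)]

lemma integrable_wt {w : ℝ → ℝ} {θ C T : ℝ} (hw : Wgt w θ C) (hT : 0 < T) {F : ℝ → ℝ}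
    (hF : Continuous F) : Integrable fun t : ℝ => w (t / T) * F t := by
  have hcw : Continuous fun t : ℝ => w (t / T) := hw.continuous.comp (continuous_id.div_const T)
  have hcs : HasCompactSupport fun t : ℝ => w (t / T) := by
    refine HasCompactSupport.intro (isCompact_Icc (a := θ * T) (b := 2 * T)) fun x hx => ?_
    exact hw.zero_of_notMem hT hx
  exact (hcw.mul hF).integrable_of_hasCompactSupport hcs.mul_right

/-- mean values of the polynomials over the groups times the small primes -/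
lemma mean {w : ℝ → ℝ} {C1 W : ℝ} {k δ T N ε : ℝ} (hδ : 0 ≤ δ) (hT : 1 ≤ T) (hN : 1 ≤ N)
    (hI : ∀ T N : ℝ, 1 ≤ T → 1 ≤ N → ∀ P : DP,
      (∀ n, P.coeff n ≠ 0 → 1 ≤ n ∧ (n : ℝ) ≤ N) →
      ∫ t : ℝ, w (t / T) * ‖ev t P‖ ^ 2 ≤ (T * W + C1 / T * N ^ 2) * En P)
    (hk : 0 ≤ k) (K v p0 : ℕ) (hp0 : 1 ≤ p0) (Y : ℝ) (J : ℕ)
    (hNN : Real.exp (p0 * (K * Real.log p0)) * Real.exp (el v Y J 0) ≤ N)
    (herr : C1 / T * N ^ 2 ≤ ε * T) {f : DP}
    (hf : ∀ n, f.coeff n ≠ 0 → n ∈ Smo (SU v p0 Y 0 J : Set ℕ) ∧ 1 ≤ n ∧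
      Real.log n ≤ el v Y J 0) :
    ∫ t : ℝ, w (t / T) * ‖ev t (tw δ (B0 k K p0 * f))‖ ^ 2
      ≤ (W + ε) * T * (F0 k K p0 (1 + 2 * δ) * En (tw δ f)) := by
  have h1 := hI T N hT hN (tw δ (B0 k K p0 * f)) (by
    intro n hn
    rw [coeff_tw] at hn
    obtain ⟨a, b, ha, hb, rfl⟩ := J4.NInt.coeff_mul_ne (left_ne_zero_of_mul hn)
    have ha' := (cone_B0 hk K hp0 a).2 ha
    obtain ⟨-, hb1, hb2⟩ := hf b hb
    have ha0 : (0 : ℝ) < a := by exact_mod_cast ha'.1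
    have hb0 : (0 : ℝ) < b := by exact_mod_cast hb1
    refine ⟨Nat.mul_pos ha'.1 hb1, ?_⟩
    push_cast
    refine le_trans ?_ hNN
    refine mul_le_mul ?_ ?_ hb0.le (Real.exp_pos _).le
    · rw [← Real.exp_log ha0]
      exact Real.exp_le_exp.2 ha'.2
    · rw [← Real.exp_log hb0]
      exact Real.exp_le_exp.2 hb2)
  refine h1.trans ?_
  rw [En_split hδ K v p0 Y J fun n hn => (hf n hn).1]
  refine mul_le_mul_of_nonneg_right ?_ ?_
  · nlinarith
  · have := NL.OS.one_le_F0 k K p0 (1 + 2 * δ)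
    have h2 := En_nonneg' (tw δ f)
    positivity

end D4

theorem mainNear (h1 : PtYoung) (h2 : LenEI) (h3 : SumEI) (h4 : SumB) : MainNear := by
  intro w θ C hθ hw η hη
  obtain ⟨C1, hC1, hI⟩ := J4.NInt.int_sq_le J4.mvt hθ hw
  obtain ⟨CE, hCE, vE, hE⟩ := h3
  obtain ⟨vB, hB⟩ := h4
  set W : ℝ := ∫ u, w u with hW
  have hW0 : 0 ≤ W := integral_nonneg hw.nonneg
  obtain ⟨ε, hε, hε1, hεη⟩ : ∃ ε : ℝ, 0 < ε ∧ ε ≤ 1 ∧ (1 + ε) ^ 2 * (W + ε) ≤ W + η := by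
    refine ⟨min 1 (η / (4 + 3 * W)), by positivity, min_le_left _ _, ?_⟩
    set ε := min 1 (η / (4 + 3 * W)) with hεd
    have e1 : ε ≤ 1 := min_le_left _ _
    have e2 : ε * (4 + 3 * W) ≤ η := by
      have := min_le_right 1 (η / (4 + 3 * W))
      rw [← hεd] at this
      rwa [le_div_iff₀ (by positivity)] at this
    have e3 : 0 < ε := by positivity
    nlinarith [mul_nonneg e3.le hW0, mul_nonneg e3.le e3.le, mul_nonneg (mul_nonneg e3.le e3.le) hW0,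
      mul_nonneg (mul_nonneg e3.le e3.le) e3.le, mul_nonneg e3.le (sub_nonneg.2 e1),
      mul_nonneg (mul_nonneg e3.le hW0) (sub_nonneg.2 e1),
      mul_nonneg (mul_nonneg e3.le e3.le) (sub_nonneg.2 e1)]
  set ρ := Real.log (1 + ε) with hρ
  have hρ0 : 0 < ρ := Real.log_pos (by linarith)
  refine ⟨max 1000 ⌈2 * (CE + 32) / ρ⌉₊, le_max_left _ _, ?_⟩
  intro p0 hp0 Λ hΛ
  have hp1 : 1000 ≤ p0 := (le_max_left _ _).trans hp0
  have hp1' : 1 ≤ p0 := by omega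
  have hp0r : (0 : ℝ) < p0 := by exact_mod_cast (by omega : 0 < p0)
  have hp2 : (CE + 32) / p0 ≤ ρ / 2 := by
    have h5 : 2 * (CE + 32) / ρ ≤ p0 := (Nat.le_ceil _).trans (by
      exact_mod_cast (le_max_right _ _).trans hp0)
    rw [div_le_iff₀ hρ0] at h5
    rw [div_le_iff₀ hp0r]
    nlinarith
  obtain ⟨K, hK⟩ := smallPt 2 p0 (ε / 2) (by positivity)
  refine ⟨max (max vE vB) (max 2 ⌈10 / ρ⌉₊), fun v hv => ?_⟩
  have hvE : vE ≤ v := ((le_max_left _ _).trans (le_max_left _ _)).trans hv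
  have hvB : vB ≤ v := ((le_max_right _ _).trans (le_max_left _ _)).trans hv
  have hv2 : 2 ≤ v := ((le_max_left _ _).trans (le_max_right _ _)).trans hv
  have hvr : 10 / ρ ≤ v := (Nat.le_ceil _).trans (by
    exact_mod_cast ((le_max_right _ _).trans (le_max_right _ _)).trans hv)
  have hv5 : 5 * Real.exp (-(v : ℝ)) ≤ ρ / 2 := by
    have h5 : (v : ℝ) * Real.exp (-(v : ℝ)) ≤ 1 := by
      have h6 := Real.add_one_le_exp (v : ℝ)
      rw [Real.exp_neg, ← div_eq_mul_inv, div_le_one (Real.exp_pos _)]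
      linarith
    rw [div_le_iff₀ hρ0] at hvr
    have h7 := Real.exp_pos (-(v : ℝ))
    nlinarith [mul_le_mul_of_nonneg_left hvr h7.le]
  -- lengths
  set N0 := Real.exp (p0 * (K * Real.log p0)) with hN0
  have hN01 : 1 ≤ N0 := Real.one_le_exp (by
    have : 0 ≤ Real.log p0 := Real.log_natCast_nonneg _
    positivity)
  have hvr0 : (0 : ℝ) < v := by exact_mod_cast (by omega : 0 < v)
  refine ⟨max 1 (max (2000000 * v * Λ) (C1 * N0 ^ 2 / ε)), le_max_left _ _, ?_⟩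
  intro δ T k hδ hδ4 hT hK0 hk1 hk2 J hJ
  set Y := Λ / δ with hY
  have hY0 : 0 < Y := by positivity
  have hT0 : 0 < T := by linarith
  have hKa : 1 ≤ δ * Real.log T := (le_max_left _ _).trans hK0
  have hKb : 2000000 * v * Λ ≤ δ * Real.log T :=
    ((le_max_left _ _).trans (le_max_right _ _)).trans hK0
  have hKc : C1 * N0 ^ 2 / ε ≤ δ * Real.log T :=
    ((le_max_right _ _).trans (le_max_right _ _)).trans hK0
  have hlT : 0 < Real.log T := by
    by_contra h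
    nlinarith
  set N := N0 * Real.exp (el v Y J 0) with hN
  have hel0 : 0 ≤ el v Y J 0 := by
    unfold el ell
    split_ifs
    · have : 0 < Yg v Y 0 := by unfold Yg; positivity
      positivity
    · exact le_rfl
  have hN1 : 1 ≤ N := by
    have := Real.one_le_exp hel0
    nlinarith
  have hel : 2 * el v Y J 0 ≤ Real.log T := by
    unfold el ell
    split_ifs
    · have e1 : Yg v Y 0 = Y := by simp [Yg]
      rw [e1, hY]
      have e2 : 2 * (1000000 * (v : ℝ) * ((0 : ℕ) + 1 : ℝ) ^ 2 * (Λ / δ)) =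
          2000000 * v * Λ / δ := by
        push_cast
        ring
      rw [e2, div_le_iff₀ hδ]
      linarith
    · rw [mul_zero]
      exact hlT.le
  have herr : C1 / T * N ^ 2 ≤ ε * T := by
    have e1 : N ^ 2 ≤ N0 ^ 2 * T := by
      have e0 : Real.exp (el v Y J 0) ^ 2 ≤ T := by
        calc Real.exp (el v Y J 0) ^ 2 = Real.exp (2 * el v Y J 0) := by
              rw [← Real.exp_nat_mul]
              push_cast
              rfl
          _ ≤ Real.exp (Real.log T) := Real.exp_le_exp.2 hel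
          _ = T := Real.exp_log hT0
      rw [hN, mul_pow]
      exact mul_le_mul_of_nonneg_left e0 (by positivity)
    have e2 : C1 * N0 ^ 2 ≤ ε * T := by
      rw [div_le_iff₀ hε] at hKc
      have e3 : δ * Real.log T ≤ T := by
        have e4 : Real.log T ≤ T - 1 := Real.log_le_sub_one_of_pos hT0
        nlinarith
      nlinarith
    calc C1 / T * N ^ 2 ≤ C1 / T * (N0 ^ 2 * T) := by gcongr
      _ = C1 * N0 ^ 2 := by field_simp
      _ ≤ ε * T := e2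
  -- the parameter
  set a := 1 - k / 2 with ha
  have ha0 : 0 ≤ a := by rw [ha]; linarith
  have ha1 : a ≤ 1 / 2 := by rw [ha]; linarith
  set E := Real.exp (Real.exp (-(v : ℝ))) with hEd
  have hE1 : 0 < E := Real.exp_pos _
  set s := (Finset.Ico 0 J).powerset with hs
  have hk0 : 0 ≤ k := by linarith
  let A : Finset ℕ → ℝ → ℝ := fun u t =>
    ‖ev t (tw δ (B0 k K p0 * (EI v p0 Y 0 J ^ 2 * Bt (-2 * a) v p0 Y 0 J u)))‖ ^ 2
  let B : Finset ℕ → ℝ → ℝ := fun u t =>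
    ‖ev t (tw δ (B0 k K p0 * Bt (2 * (1 - a)) v p0 Y 0 J u))‖ ^ 2
  have hAc : ∀ u, Continuous (A u) := fun u => (MP_f9aece_nt.continuous_ev _).norm.pow 2
  have hBc : ∀ u, Continuous (B u) := fun u => (MP_f9aece_nt.continuous_ev _).norm.pow 2
  have hWt : ∀ u, 0 ≤ Wt v u := fun u => by
    unfold Wt
    refine Finset.prod_nonneg fun g _ => ?_
    have : 0 ≤ Rg v g := by unfold Rg; positivity
    positivity
  -- pointwise inequality
  have hpt : ∀ t : ℝ, ‖(evs (pt δ t) (Dsm p0))⁻¹ * ev t (tw δ (EI v p0 Y 0 J))‖ ^ (2 * k)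
      ≤ (1 + ε) * (E * ((1 - a) * ∑ u ∈ s, Wt v u * A u t + a * ∑ u ∈ s, Wt v u * B u t)) := by
    intro t
    obtain ⟨G, H, hG, hH, hz, hG', hH'⟩ := h1 v (by omega) p0 Y 0 J a ha0 ha1 δ t
    have hb := hK K le_rfl k hk0 (by exact_mod_cast hk2) δ t hδ.le
    set b := evs (pt δ t) (B0 k K p0) with hbd
    set D := evs (pt δ t) (Dsm p0) with hD
    set X := ev t (tw δ (EI v p0 Y 0 J)) with hX
    have hb1 := (abs_le.1 hb).1
    have hD0 : 0 < ‖D‖ := by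
      by_contra h
      have h5 : ‖D‖ = 0 := le_antisymm (not_lt.1 h) (norm_nonneg _)
      rw [h5, Real.zero_rpow (by linarith)] at hb1
      linarith
    have hDk : 0 < ‖D‖ ^ (2 * k) := Real.rpow_pos_of_pos hD0 _
    have hinv : ‖D⁻¹‖ ^ (2 * k) ≤ (1 + ε) * ‖b‖ ^ 2 := by
      rw [norm_inv, Real.inv_rpow hD0.le, inv_le_iff_one_le_mul₀ hDk]
      nlinarith
    have hX4 := hz X
    have e4 : 4 * (1 - a) = 2 * k := by rw [ha]; ring
    rw [e4] at hX4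
    rw [norm_mul, Real.mul_rpow (norm_nonneg _) (norm_nonneg _)]
    have hX0 : 0 ≤ ‖X‖ ^ (2 * k) := Real.rpow_nonneg (norm_nonneg _) _
    have f1 : ∀ u, A u t = ‖b‖ ^ 2 * ‖X‖ ^ 4 * ‖ev t (tw δ (Bt (-2 * a) v p0 Y 0 J u))‖ ^ 2 := by
      intro u
      change ‖ev t (tw δ (B0 k K p0 * (EI v p0 Y 0 J ^ 2 * Bt (-2 * a) v p0 Y 0 J u)))‖ ^ 2 = _
      have e1 : ev t (tw δ (B0 k K p0)) = b := by
        rw [ev_tw hδ.le]
        rfl
      rw [map_mul, map_mul, map_mul, map_mul, map_pow, map_pow, e1, norm_mul, norm_mul, norm_pow]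
      ring
    have f2 : ∀ u, B u t = ‖b‖ ^ 2 * ‖ev t (tw δ (Bt (2 * (1 - a)) v p0 Y 0 J u))‖ ^ 2 := by
      intro u
      change ‖ev t (tw δ (B0 k K p0 * Bt (2 * (1 - a)) v p0 Y 0 J u))‖ ^ 2 = _
      have e1 : ev t (tw δ (B0 k K p0)) = b := by
        rw [ev_tw hδ.le]
        rfl
      rw [map_mul, map_mul, e1, norm_mul]
      ring
    have g1 : ‖b‖ ^ 2 * (‖X‖ ^ 4 * G) ≤ E * ∑ u ∈ s, Wt v u * A u t := by
      have e1 : E * ∑ u ∈ s, Wt v u * A u t = ‖b‖ ^ 2 * ‖X‖ ^ 4 * (E * ∑ u ∈ s,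
          Wt v u * ‖ev t (tw δ (Bt (-2 * a) v p0 Y 0 J u))‖ ^ 2) := by
        rw [Finset.mul_sum, Finset.mul_sum, Finset.mul_sum]
        refine Finset.sum_congr rfl fun u _ => ?_
        rw [f1]
        ring
      rw [e1, ← mul_assoc]
      exact mul_le_mul_of_nonneg_left hG' (by positivity)
    have g2 : ‖b‖ ^ 2 * H ≤ E * ∑ u ∈ s, Wt v u * B u t := by
      have e1 : E * ∑ u ∈ s, Wt v u * B u t = ‖b‖ ^ 2 * (E * ∑ u ∈ s,
          Wt v u * ‖ev t (tw δ (Bt (2 * (1 - a)) v p0 Y 0 J u))‖ ^ 2) := by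
        rw [Finset.mul_sum, Finset.mul_sum, Finset.mul_sum]
        refine Finset.sum_congr rfl fun u _ => ?_
        rw [f2]
        ring
      rw [e1]
      exact mul_le_mul_of_nonneg_left hH' (by positivity)
    calc ‖D⁻¹‖ ^ (2 * k) * ‖X‖ ^ (2 * k)
        ≤ ((1 + ε) * ‖b‖ ^ 2) * ((1 - a) * (‖X‖ ^ 4 * G) + a * H) :=
          mul_le_mul hinv hX4 hX0 (by positivity)
      _ = (1 + ε) * ((1 - a) * (‖b‖ ^ 2 * (‖X‖ ^ 4 * G)) + a * (‖b‖ ^ 2 * H)) := by ring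
      _ ≤ (1 + ε) * ((1 - a) * (E * ∑ u ∈ s, Wt v u * A u t) + a * (E * ∑ u ∈ s,
          Wt v u * B u t)) := by
          have h5 : 0 ≤ 1 - a := by linarith
          gcongr
      _ = _ := by ring
  -- integration
  have hSA : Continuous fun t => ∑ u ∈ s, Wt v u * A u t :=
    continuous_finsetSum _ fun u _ => continuous_const.mul (hAc u)
  have hSB : Continuous fun t => ∑ u ∈ s, Wt v u * B u t :=
    continuous_finsetSum _ fun u _ => continuous_const.mul (hBc u)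
  have hint : ∫ t : ℝ, w (t / T) *
      ‖(evs (pt δ t) (Dsm p0))⁻¹ * ev t (tw δ (EI v p0 Y 0 J))‖ ^ (2 * k)
      ≤ (1 + ε) * (E * ((1 - a) * (∑ u ∈ s, Wt v u * ∫ t : ℝ, w (t / T) * A u t) +
        a * (∑ u ∈ s, Wt v u * ∫ t : ℝ, w (t / T) * B u t))) := by
    have hc : Continuous fun t =>
        (1 + ε) * (E * ((1 - a) * ∑ u ∈ s, Wt v u * A u t + a * ∑ u ∈ s, Wt v u * B u t)) :=
      continuous_const.mul (continuous_const.mul
        ((continuous_const.mul hSA).add (continuous_const.mul hSB)))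
    have h5 : ∫ t : ℝ, w (t / T) *
        ‖(evs (pt δ t) (Dsm p0))⁻¹ * ev t (tw δ (EI v p0 Y 0 J))‖ ^ (2 * k)
        ≤ ∫ t : ℝ, w (t / T) * ((1 + ε) * (E * ((1 - a) * ∑ u ∈ s, Wt v u * A u t +
          a * ∑ u ∈ s, Wt v u * B u t))) := by
      refine integral_mono_of_nonneg (Eventually.of_forall fun t => ?_)
        (D4.integrable_wt hw hT0 hc) (Eventually.of_forall fun t => ?_)
      · exact mul_nonneg (hw.nonneg _) (Real.rpow_nonneg (norm_nonneg _) _)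
      · exact mul_le_mul_of_nonneg_left (hpt t) (hw.nonneg _)
    refine h5.trans (le_of_eq ?_)
    have e1 : ∀ (Q : Finset ℕ → ℝ → ℝ), (∀ u, Continuous (Q u)) →
        ∫ t : ℝ, w (t / T) * ∑ u ∈ s, Wt v u * Q u t =
          ∑ u ∈ s, Wt v u * ∫ t : ℝ, w (t / T) * Q u t := by
      intro Q hQ
      have e2 : (fun t : ℝ => w (t / T) * ∑ u ∈ s, Wt v u * Q u t) =
          fun t => ∑ u ∈ s, Wt v u * (w (t / T) * Q u t) := by
        funext t
        rw [Finset.mul_sum]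
        exact Finset.sum_congr rfl fun u _ => by ring
      rw [e2, integral_finsetSum _ fun u _ => (D4.integrable_wt hw hT0 (hQ u)).const_mul _]
      exact Finset.sum_congr rfl fun u _ => integral_const_mul _ _
    have e3 : (fun t : ℝ => w (t / T) * ((1 + ε) * (E * ((1 - a) * ∑ u ∈ s, Wt v u * A u t +
          a * ∑ u ∈ s, Wt v u * B u t)))) = fun t =>
        ((1 + ε) * E * (1 - a)) * (w (t / T) * ∑ u ∈ s, Wt v u * A u t) +
          ((1 + ε) * E * a) * (w (t / T) * ∑ u ∈ s, Wt v u * B u t) := by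
      funext t
      ring
    rw [e3, integral_add ((D4.integrable_wt hw hT0 hSA).const_mul _)
      ((D4.integrable_wt hw hT0 hSB).const_mul _), integral_const_mul, integral_const_mul,
      e1 A hAc, e1 B hBc]
    ring
  -- mean values
  set F := F0 k K p0 (1 + 2 * δ) with hFd
  have hF1 : 1 ≤ F := NL.OS.one_le_F0 k K p0 (1 + 2 * δ)
  have hIA : ∑ u ∈ s, Wt v u * ∫ t : ℝ, w (t / T) * A u t ≤ (W + ε) * T * F *
      Real.exp (k ^ 2 * Qs δ v p0 Y 0 J + CE / p0 + 4 * Real.exp (-(v : ℝ))) := by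
    have h5 := hE v hvE p0 hp1 Y hY0 0 J (-2 * a) δ (by rw [ha]; linarith)
      (by linarith) hδ.le
    have e5 : (2 + -2 * a) ^ 2 = k ^ 2 := by rw [ha]; ring
    rw [e5] at h5
    calc ∑ u ∈ s, Wt v u * ∫ t : ℝ, w (t / T) * A u t
        ≤ ∑ u ∈ s, Wt v u * ((W + ε) * T * (F * En (tw δ (EI v p0 Y 0 J ^ 2 *
          Bt (-2 * a) v p0 Y 0 J u)))) := by
          refine Finset.sum_le_sum fun u hu => mul_le_mul_of_nonneg_left ?_ (hWt u)
          exact D4.mean hδ.le hT hN1 hI hk0 K v p0 hp1' Y J le_rfl herr fun n hn =>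
            (h2 v p0 hv2 hp1 Y hY0 0 J (Nat.zero_le _) (-2 * a) u hu n).1 hn
      _ = (W + ε) * T * F * ∑ u ∈ s, Wt v u * En (tw δ (EI v p0 Y 0 J ^ 2 *
          Bt (-2 * a) v p0 Y 0 J u)) := by
          rw [Finset.mul_sum]
          exact Finset.sum_congr rfl fun u _ => by ring
      _ ≤ _ := mul_le_mul_of_nonneg_left h5 (by positivity)
  have hIB : ∑ u ∈ s, Wt v u * ∫ t : ℝ, w (t / T) * B u t ≤ (W + ε) * T * F *
      Real.exp (k ^ 2 * Qs δ v p0 Y 0 J + CE / p0 + 4 * Real.exp (-(v : ℝ))) := by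
    have h5 := hB v hvB p0 hp1 Y hY0 0 J (2 * (1 - a)) δ hδ.le
    have e5 : (2 * (1 - a)) ^ 2 = k ^ 2 := by rw [ha]; ring
    rw [e5] at h5
    calc ∑ u ∈ s, Wt v u * ∫ t : ℝ, w (t / T) * B u t
        ≤ ∑ u ∈ s, Wt v u * ((W + ε) * T * (F * En (tw δ
          (Bt (2 * (1 - a)) v p0 Y 0 J u)))) := by
          refine Finset.sum_le_sum fun u hu => mul_le_mul_of_nonneg_left ?_ (hWt u)
          exact D4.mean hδ.le hT hN1 hI hk0 K v p0 hp1' Y J le_rfl herr fun n hn =>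
            (h2 v p0 hv2 hp1 Y hY0 0 J (Nat.zero_le _) (2 * (1 - a)) u hu n).2 hn
      _ = (W + ε) * T * F * ∑ u ∈ s, Wt v u * En (tw δ (Bt (2 * (1 - a)) v p0 Y 0 J u)) := by
          rw [Finset.mul_sum]
          exact Finset.sum_congr rfl fun u _ => by ring
      _ ≤ (W + ε) * T * F * Real.exp (k ^ 2 * Qs δ v p0 Y 0 J + 4 * Real.exp (-(v : ℝ))) :=
          mul_le_mul_of_nonneg_left h5 (by positivity)
      _ ≤ _ := by
          refine mul_le_mul_of_nonneg_left (Real.exp_le_exp.2 ?_) (by positivity)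
          have : 0 ≤ CE / p0 := by positivity
          linarith
  set M := (W + ε) * T * F *
      Real.exp (k ^ 2 * Qs δ v p0 Y 0 J + CE / p0 + 4 * Real.exp (-(v : ℝ))) with hM
  have h1a : 0 ≤ 1 - a := by linarith
  have hcmp := D4.cmp k δ hk0 hk2 hδ hδ4 K v p0 hp1' hY0.le J
  have hSS : 0 ≤ SS k (1 + 2 * δ) := tsum_nonneg fun n => by positivity
  calc ∫ t : ℝ, w (t / T) *
      ‖(evs (pt δ t) (Dsm p0))⁻¹ * ev t (tw δ (EI v p0 Y 0 J))‖ ^ (2 * k)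
      ≤ (1 + ε) * (E * ((1 - a) * M + a * M)) := by
        refine hint.trans ?_
        gcongr
    _ = (1 + ε) * (W + ε) * T * ((F * Real.exp (k ^ 2 * Qs δ v p0 Y 0 J)) *
        Real.exp (Real.exp (-(v : ℝ)) + CE / p0 + 4 * Real.exp (-(v : ℝ)))) := by
        rw [hM, hEd, Real.exp_add, Real.exp_add, Real.exp_add, Real.exp_add]
        ring
    _ ≤ (1 + ε) * (W + ε) * T * ((Real.exp (32 / p0) * SS k (1 + 2 * δ)) *
        Real.exp (Real.exp (-(v : ℝ)) + CE / p0 + 4 * Real.exp (-(v : ℝ)))) := by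
        gcongr
    _ = (1 + ε) * (W + ε) * (T * SS k (1 + 2 * δ)) *
        Real.exp ((CE + 32) / p0 + 5 * Real.exp (-(v : ℝ))) := by
        have e1 : (CE + 32) / (p0 : ℝ) + 5 * Real.exp (-(v : ℝ)) =
            32 / p0 + (Real.exp (-(v : ℝ)) + CE / p0 + 4 * Real.exp (-(v : ℝ))) := by ring
        rw [e1, Real.exp_add (32 / (p0 : ℝ))]
        ring
    _ ≤ (1 + ε) * (W + ε) * (T * SS k (1 + 2 * δ)) * (1 + ε) := by
        have e1 : Real.exp ((CE + 32) / p0 + 5 * Real.exp (-(v : ℝ))) ≤ 1 + ε := by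
          rw [← Real.exp_log (show (0 : ℝ) < 1 + ε by linarith)]
          apply Real.exp_le_exp.2
          rw [← hρ]
          linarith
        gcongr
    _ = ((1 + ε) ^ 2 * (W + ε)) * (T * SS k (1 + 2 * δ)) := by ring
    _ ≤ (W + η) * (T * SS k (1 + 2 * δ)) := by gcongr

end Pool.Agent.Lib.N4
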